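import Mathlib
import Pool.Agent.W411.LP.FG

/-!
# MP_d2aba3_al, the case `j = 1`

Every matrix in `SL₂(ℤ[x,x⁻¹])` is tame (a product of elementary matrices), so tameness is decidable
for `j = 1`, by the algorithm that always answers yes; and `SL₂(ℤ[x,x⁻¹])` is finitely generated, by the five
matrices `e₁₂(1), e₁₂(x), e₂₁(1), e₂₁(x), diag(x,x⁻¹)`.
-/

set_option autoImplicit false

namespace Pool.Agent.Results.MP_d2aba3_al.TameJOne

open LaurentPolynomial Matrix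

/-- The elementary matrices in `SL₂(R₁)`, `R₁ = ℤ[x,x⁻¹]`: identity plus one off-diagonal entry. -/
def elementary : Set (SpecialLinearGroup (Fin 2) ℤ[T;T⁻¹]) :=
  {g | ∃ i j : Fin 2, ∃ c : ℤ[T;T⁻¹], i ≠ j ∧
    (g : Matrix (Fin 2) (Fin 2) ℤ[T;T⁻¹]) = Matrix.transvection i j c}

/-- Tame: product of elementary matrices (and inverses). -/
def Tame (g : SpecialLinearGroup (Fin 2) ℤ[T;T⁻¹]) : Prop := g ∈ Subgroup.closure elementary

/-- A Laurent polynomial given by a finite list of pairs (coefficient, exponent). -/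
noncomputable def ofList (l : List (ℤ × ℤ)) : ℤ[T;T⁻¹] := (l.map fun p => C p.1 * T p.2).sum

/-- A `2 × 2` matrix given by the lists of its four entries. -/
noncomputable def ofInput (x : (List (ℤ × ℤ) × List (ℤ × ℤ)) × (List (ℤ × ℤ) × List (ℤ × ℤ))) :
    Matrix (Fin 2) (Fin 2) ℤ[T;T⁻¹] :=
  !![ofList x.1.1, ofList x.1.2; ofList x.2.1, ofList x.2.2]

theorem result :
    (∀ α : SpecialLinearGroup (Fin 2) ℤ[T;T⁻¹], Tame α) ∧
    Group.FG (SpecialLinearGroup (Fin 2) ℤ[T;T⁻¹]) ∧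
    Subgroup.closure ({α : SpecialLinearGroup (Fin 2) ℤ[T;T⁻¹] |
      (α : Matrix (Fin 2) (Fin 2) ℤ[T;T⁻¹]) = !![1, 1; 0, 1] ∨
      (α : Matrix (Fin 2) (Fin 2) ℤ[T;T⁻¹]) = !![1, T 1; 0, 1] ∨
      (α : Matrix (Fin 2) (Fin 2) ℤ[T;T⁻¹]) = !![1, 0; 1, 1] ∨
      (α : Matrix (Fin 2) (Fin 2) ℤ[T;T⁻¹]) = !![1, 0; T 1, 1] ∨
      (α : Matrix (Fin 2) (Fin 2) ℤ[T;T⁻¹]) = !![T 1, 0; 0, T (-1)]}) = ⊤ ∧
    (∃ f : (List (ℤ × ℤ) × List (ℤ × ℤ)) × (List (ℤ × ℤ) × List (ℤ × ℤ)) → Bool,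
      Computable f ∧
      ∀ x, ∀ α : SpecialLinearGroup (Fin 2) ℤ[T;T⁻¹],
        (α : Matrix (Fin 2) (Fin 2) ℤ[T;T⁻¹]) = ofInput x → (f x = true ↔ Tame α)) := by
  have h1 : ∀ α : SpecialLinearGroup (Fin 2) ℤ[T;T⁻¹], Tame α :=
    fun α => Pool.Agent.W411.LP.mem_EE α
  refine ⟨h1, ?_, ?_, fun _ => true, Computable.const true, fun x α _ => ⟨fun _ => h1 α, fun _ => rfl⟩⟩
  · exact Group.fg_iff.2 ⟨Pool.Agent.W411.LP.FS, Pool.Agent.W411.LP.closure_FS,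
      Pool.Agent.W411.LP.FS_finite⟩
  · rw [eq_top_iff, ← Pool.Agent.W411.LP.closure_FS]
    apply Subgroup.closure_mono
    rintro g (rfl | rfl | rfl | rfl | rfl)
    · exact Or.inl rfl
    · exact Or.inr (Or.inl rfl)
    · exact Or.inr (Or.inr (Or.inl rfl))
    · exact Or.inr (Or.inr (Or.inr (Or.inl rfl)))
    · exact Or.inr (Or.inr (Or.inr (Or.inr rfl)))

end Pool.Agent.Results.MP_d2aba3_al.TameJOne
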